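import Pool.Agent.W128.VA.Stm

set_option autoImplicit false

namespace Pool.Agent.W89.VA.BI

open Finset
open Pool.Agent.W128.VA

theorem bi_zero_right (m : ℤ) : bi m 0 = 1 := by simp [bi]

theorem bi_zero_succ (j : ℕ) : bi 0 (j + 1) = 0 := by simp [bi, Ring.choose_zero_succ]

theorem bi_succ_succ (m : ℤ) (j : ℕ) : bi (m + 1) (j + 1) - bi m (j + 1) = bi m j := by
  simp only [bi]
  rw [Ring.choose_succ_succ]
  push_cast
  ring

section

variable {W : Type} [AddCommGroup W] [Module ℂ W]

/-- the right-hand side, as an operator -/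
noncomputable def S (a b : Fld W) (N : ℕ) (k m n : ℤ) : Module.End ℂ W :=
  ∑ j ∈ range ((N : ℤ) - k).toNat, bi m j • R a b (k + j) 0 (m + n - j)

theorem S_rec (a b : Fld W) (N : ℕ) (k m n : ℤ) :
    S a b N (k + 1) m n = S a b N k (m + 1) n - S a b N k m (n + 1) := by
  by_cases hk : (N : ℤ) ≤ k
  · simp [S, show ((N : ℤ) - (k + 1)).toNat = 0 by omega, show ((N : ℤ) - k).toNat = 0 by omega]
  · obtain ⟨M, hM⟩ : ∃ M : ℕ, ((N : ℤ) - k).toNat = M + 1 :=
      ⟨((N : ℤ) - k).toNat - 1, by omega⟩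
    have hM' : ((N : ℤ) - (k + 1)).toNat = M := by omega
    simp only [S, hM, hM']
    rw [← Finset.sum_sub_distrib, Finset.sum_range_succ' _ M]
    have h0 : bi (m + 1) 0 • R a b (k + (0 : ℕ)) 0 (m + 1 + n - (0 : ℕ)) -
        bi m 0 • R a b (k + (0 : ℕ)) 0 (m + (n + 1) - (0 : ℕ)) = 0 := by
      rw [bi_zero_right, bi_zero_right, show m + (n + 1) = m + 1 + n by ring, sub_self]
    rw [h0, add_zero]
    refine Finset.sum_congr rfl fun i _ => ?_
    rw [show m + (n + 1) = m + 1 + n by ring, ← sub_smul, bi_succ_succ]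
    congr 2
    · push_cast; ring
    · push_cast; ring

theorem S_zero (a b : Fld W) (N : ℕ) (hloc : ∀ k m n : ℤ, (N : ℤ) ≤ k → R a b k m n = 0)
    (k n : ℤ) : S a b N k 0 n = R a b k 0 n := by
  by_cases hk : (N : ℤ) ≤ k
  · rw [hloc k 0 n hk]
    simp [S, show ((N : ℤ) - k).toNat = 0 by omega]
  · obtain ⟨M, hM⟩ : ∃ M : ℕ, ((N : ℤ) - k).toNat = M + 1 :=
      ⟨((N : ℤ) - k).toNat - 1, by omega⟩
    simp only [S, hM]
    rw [Finset.sum_range_succ' _ M]
    rw [Finset.sum_eq_zero fun i _ => by rw [bi_zero_succ, zero_smul], zero_add, bi_zero_right,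
      one_smul]
    simp

/-- a function with `D (m+1) n = D m (n+1)` and `D 0 n = 0` vanishes -/
theorem vanish {G : Type*} [AddCommGroup G] (D : ℤ → ℤ → G)
    (h : ∀ m n, D (m + 1) n = D m (n + 1)) (h0 : ∀ n, D 0 n = 0) : ∀ m n, D m n = 0 := by
  intro m
  induction m using Int.induction_on with
  | zero => exact h0
  | succ i ih => intro n; rw [h]; exact ih _
  | pred i ih =>
    intro n
    have := h (-(i : ℤ) - 1) (n - 1)
    rw [show -(i : ℤ) - 1 + 1 = -i by ring, show n - 1 + 1 = n by ring] at this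
    rw [← this]; exact ih _

theorem R_eq_S (hR : S_RREC) (a b : Fld W) (N : ℕ)
    (hloc : ∀ k m n : ℤ, (N : ℤ) ≤ k → R a b k m n = 0) (p : ℕ) :
    ∀ k m n : ℤ, (N : ℤ) - p ≤ k → R a b k m n = S a b N k m n := by
  induction p with
  | zero =>
    intro k m n hk
    have hk' : (N : ℤ) ≤ k := by simpa using hk
    rw [hloc k m n hk']
    simp [S, show ((N : ℤ) - k).toNat = 0 by omega]
  | succ p ih =>
    intro k m n hk
    have h1 : ∀ m n : ℤ, R a b k (m + 1) n - S a b N k (m + 1) n =
        R a b k m (n + 1) - S a b N k m (n + 1) := by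
      intro m n
      have e1 := hR W a b k m n
      have e2 := S_rec a b N k m n
      have e3 := ih (k + 1) m n (by push_cast at hk; omega)
      rw [e1, e2] at e3
      have : R a b k (m + 1) n - S a b N k (m + 1) n -
          (R a b k m (n + 1) - S a b N k m (n + 1)) = 0 := by
        have e4 := sub_eq_zero.2 e3
        rw [← e4]; abel
      exact sub_eq_zero.1 this
    have h2 := vanish (fun m n => R a b k m n - S a b N k m n) h1
      (fun n => sub_eq_zero.2 (S_zero a b N hloc k n).symm) m n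
    exact sub_eq_zero.1 h2

end

theorem main : S_RREC → S_RLOC → S_BI := by
  intro hR hL W _ _ a b hab k m n w L h1 h2 h3
  obtain ⟨N, hN⟩ := hab
  have hloc : ∀ k m n : ℤ, (N : ℤ) ≤ k → R a b k m n = 0 := hL W a b N hN
  rw [← R_apply' a b k m n w L h2 h3]
  rw [R_eq_S hR a b N hloc ((N : ℤ) - k).toNat k m n (by omega)]
  change ∑ j ∈ range L, bi m j • R a b (k + j) 0 (m + n - j) w = _
  rw [S, LinearMap.sum_apply]
  simp only [LinearMap.smul_apply]
  set K := max L ((N : ℤ) - k).toNat
  trans ∑ j ∈ range K, bi m j • R a b (k + j) 0 (m + n - j) w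
  · refine Finset.sum_subset (Finset.range_subset_range.2 (le_max_left _ _)) fun j _ hj => ?_
    have : R a b (k + j) 0 (m + n - j) w = 0 := h1 j (by simpa using hj)
    rw [this, smul_zero]
  · symm
    refine Finset.sum_subset (Finset.range_subset_range.2 (le_max_right _ _)) fun j _ hj => ?_
    have hj' : ((N : ℤ) - k).toNat ≤ j := by simpa using hj
    rw [hloc (k + j) 0 (m + n - j) (by omega)]
    simp

end Pool.Agent.W89.VA.BI
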